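import Pool.Agent.H.MP_deabf1_gt.helper32.Plc
import Pool.Agent.H.MP_deabf1_gt.helper94.Mono

/-!
An infinite set of complex solutions of the Einstein equations gives a solution over a field with a
discrete place, with finite nonzero volume and with an infinitesimal coordinate.
-/

namespace Pool.Agent.H.MP_deabf1_gt.Tet

open Polynomial Gen

/-- An infinite set has an infinite fibre over a point of a finite image. -/
theorem exists_infinite_fibre {α β : Type*} {S : Set α} (hS : S.Infinite) (f : α → β)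
    (hf : (f '' S).Finite) : ∃ c, {u | u ∈ S ∧ f u = c}.Infinite := by
  by_contra hne
  push Not at hne
  apply hS
  refine (Set.Finite.biUnion hf (t := fun c => {u | u ∈ S ∧ f u = c}) fun c _ => hne c).subset ?_
  intro u hu
  exact Set.mem_biUnion (Set.mem_image_of_mem f hu) ⟨hu, rfl⟩

/-- An infinite set of tuples has infinitely many values of some coordinate. -/
theorem exists_infinite_coord {q : ℕ} {α : Type*} {S : Set (Fin q → α)} (hS : S.Infinite) :
    ∃ i, ((fun u : Fin q → α => u i) '' S).Infinite := by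
  by_contra hne
  push Not at hne
  apply hS
  refine (Set.Finite.pi (t := fun i => (fun u : Fin q → α => u i) '' S) fun i => hne i).subset ?_
  intro u hu i _
  exact Set.mem_image_of_mem _ hu

/-- The end. -/
theorem exists_end {q : ℕ} {T : Fin q → Fin q → Fin q → ℝ} (hT : Sym T) {γ : Fin q → ℝ}
    {d : Fin q → ℕ} {S : Set (Fin q → ℂ)}
    (hS : ∀ u ∈ S, (∀ i, u i ≠ 0) ∧
      ∀ i, eqL (fun i j k => (T i j k : ℂ)) (fun i => (γ i : ℂ)) u i = (d i : ℂ))
    (hinf : S.Infinite) (hd : ∀ i, 0 < d i) :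
    ∃ (E : Type) (_ : Field E) (_ : Algebra ℝ E) (P : Pl E) (t : E) (v : Fin q → E) (c : ℂ),
      t ≠ 0 ∧ P.I t ∧
      (∀ a : E, a ≠ 0 → ∃ (n : ℤ) (z : ℂ), z ≠ 0 ∧ P.Lim (a / t ^ n) z) ∧ (∀ i, v i ≠ 0) ∧
      (∀ i, eqL (fun i j k => algebraMap ℝ E (T i j k)) (fun i => algebraMap ℝ E (γ i)) v i =
        (d i : E)) ∧
      c ≠ 0 ∧ P.Lim (∏ i, v i ^ d i) c ∧ ∃ i, P.I (v i) := by
  classical
  have _ := hd
  have hT' : Sym (fun i j k => (T i j k : ℂ)) :=
    ⟨fun i j k => by simp only [hT.1 i j k], fun i j k => by simp only [hT.2 i j k]⟩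
  have hfin := mono_finite (k := ℂ) hT' (γ := fun i => (γ i : ℂ)) (d := fun i => (d i : ℂ))
    (S := S) hS (a := fun i => (d i : ℤ)) (by
      intro n hn
      have h1 : ((∑ i, (d i : ℤ) * n i : ℤ) : ℂ) = 0 := by
        rw [← hn]
        push_cast
        exact Finset.sum_congr rfl fun i _ => mul_comm _ _
      exact_mod_cast h1)
  obtain ⟨c, hc⟩ := exists_infinite_fibre hinf _ hfin
  obtain ⟨i0, hi0⟩ := exists_infinite_coord hc
  obtain ⟨u0, hu0, hu0c⟩ := hc.nonempty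
  have hc0 : c ≠ 0 := by
    rw [← hu0c]
    exact Finset.prod_ne_zero_iff.2 fun i _ => zpow_ne_zero _ ((hS u0 hu0).1 i)
  let pt : (Fin q → ℂ) → (Fin q ⊕ Fin q) → ℂ := fun u => Sum.elim u fun i => (u i)⁻¹
  let I : Ideal (MvPolynomial (Fin q ⊕ Fin q) ℂ) :=
    ⨅ u ∈ {u | u ∈ S ∧ ∏ i, u i ^ (d i : ℤ) = c}, RingHom.ker (MvPolynomial.eval (pt u))
  have hI : ∀ f, f ∈ I ↔ ∀ u, u ∈ S → ∏ i, u i ^ (d i : ℤ) = c → MvPolynomial.eval (pt u) f = 0 := by
    intro f
    simp only [I, Submodule.mem_iInf, RingHom.mem_ker]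
    exact ⟨fun h u hu hu' => h u ⟨hu, hu'⟩, fun h u hu => h u hu.1 hu.2⟩
  let p1 : Fin q → MvPolynomial (Fin q ⊕ Fin q) ℂ := fun i =>
    MvPolynomial.X (Sum.inr i) * MvPolynomial.X (Sum.inl i) - 1
  let p2 : Fin q → MvPolynomial (Fin q ⊕ Fin q) ℂ := fun i =>
    MvPolynomial.C (γ i : ℂ) * MvPolynomial.X (Sum.inl i) +
    MvPolynomial.C (1 / 4) * ∑ j, ∑ l, MvPolynomial.C (T i j l : ℂ) *
      (2 * MvPolynomial.X (Sum.inl i) +
      MvPolynomial.X (Sum.inr i) * MvPolynomial.X (Sum.inl j) * MvPolynomial.X (Sum.inl l)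
      - MvPolynomial.X (Sum.inr j) * MvPolynomial.X (Sum.inl i) * MvPolynomial.X (Sum.inl l)
      - MvPolynomial.X (Sum.inr l) * MvPolynomial.X (Sum.inl i) * MvPolynomial.X (Sum.inl j))
      - MvPolynomial.C (d i : ℂ)
  let p3 : MvPolynomial (Fin q ⊕ Fin q) ℂ :=
    ∏ i, MvPolynomial.X (Sum.inl i) ^ d i - MvPolynomial.C c
  have hp1 : ∀ i, p1 i ∈ I := by
    intro i
    rw [hI]
    intro u hu _
    simp only [p1, pt, map_sub, map_mul, map_one, MvPolynomial.eval_X, Sum.elim_inl, Sum.elim_inr]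
    rw [inv_mul_cancel₀ ((hS u hu).1 i), sub_self]
  have hp2 : ∀ i, p2 i ∈ I := by
    intro i
    rw [hI]
    intro u hu _
    simp only [p2, pt, map_sub, map_add, map_mul, map_sum, map_ofNat, MvPolynomial.eval_X,
      MvPolynomial.eval_C, Sum.elim_inl, Sum.elim_inr]
    rw [sub_eq_zero, ← (hS u hu).2 i]
    unfold eqL
    congr 2
    refine Finset.sum_congr rfl fun j _ => Finset.sum_congr rfl fun l _ => ?_
    congr 1
    ring
  have hp3 : p3 ∈ I := by
    rw [hI]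
    intro u _ huc
    simp only [p3, pt, map_sub, map_prod, map_pow, MvPolynomial.eval_X, MvPolynomial.eval_C,
      Sum.elim_inl]
    rw [sub_eq_zero, ← huc]
    exact Finset.prod_congr rfl fun i _ => (zpow_natCast _ _).symm
  have hne : ∀ g : ℂ[X], g ≠ 0 →
      aeval (MvPolynomial.X (Sum.inl i0) : MvPolynomial (Fin q ⊕ Fin q) ℂ) g ∉ I := by
    intro g hg hgI
    apply hi0
    refine (g.rootSet_finite ℂ).subset ?_
    rintro _ ⟨u, ⟨hu, huc⟩, rfl⟩
    have h1 := (hI _).1 hgI u hu huc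
    rw [mem_rootSet]
    refine ⟨hg, ?_⟩
    have h2 : MvPolynomial.eval (pt u) (MvPolynomial.X (Sum.inl i0)) = u i0 := by
      simp only [pt, MvPolynomial.eval_X, Sum.elim_inl]
    change aeval (u i0) g = 0
    rw [← h2, ← h1, ← MvPolynomial.coe_aeval_eq_eval]
    exact aeval_algHom_apply (MvPolynomial.aeval (pt u)) _ g
  obtain ⟨E, iF, iA, iD, v, hv, hvh⟩ := exists_fin ℂ I (MvPolynomial.X (Sum.inl i0)) hne
  obtain ⟨φ, hφ⟩ : ∃ φ : ℂ →+* E, φ = (algebraMap (KK ℂ) E).comp (algebraMap ℂ (KK ℂ)) := ⟨_, rfl⟩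
  rw [← hφ] at hv hvh
  let algR : Algebra ℝ E := (φ.comp (algebraMap ℝ ℂ)).toAlgebra
  have hRφ : ∀ r : ℝ, algebraMap ℝ E r = φ (r : ℂ) := fun r => rfl
  obtain ⟨P, t, ht0, htI, hXI, hcst, hdis⟩ := exists_place E (fun r => by rw [hRφ, hφ]; rfl)
  have hcst' : ∀ z : ℂ, P.Lim (φ z) z := by
    intro z
    rw [hφ]
    exact hcst z
  have hxy : ∀ i, v (Sum.inr i) * v (Sum.inl i) = 1 := by
    intro i
    have h1 := hv _ (hp1 i)
    simp only [p1, MvPolynomial.eval₂_sub, MvPolynomial.eval₂_mul, MvPolynomial.eval₂_X,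
      MvPolynomial.eval₂_one] at h1
    exact sub_eq_zero.1 h1
  have hy : ∀ i, v (Sum.inl i) ≠ 0 := fun i h => by
    have := hxy i
    rw [h, mul_zero] at this
    exact zero_ne_one this
  have hinv : ∀ i, v (Sum.inr i) = (v (Sum.inl i))⁻¹ := fun i =>
    eq_inv_of_mul_eq_one_left (hxy i)
  refine ⟨E, iF, algR, P, t, fun i => v (Sum.inl i), c, ht0, htI, hdis, hy, ?_, hc0, ?_, i0, ?_⟩
  · intro i
    have h1 := hv _ (hp2 i)
    have h2 : MvPolynomial.eval₂ φ v 2 = 2 := by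
      have := MvPolynomial.eval₂_natCast φ v 2
      exact_mod_cast this
    simp only [p2, MvPolynomial.eval₂_sub, MvPolynomial.eval₂_add, MvPolynomial.eval₂_mul,
      MvPolynomial.eval₂_X, MvPolynomial.eval₂_sum, MvPolynomial.eval₂_C, h2] at h1
    rw [sub_eq_zero] at h1
    have h3 : φ (d i : ℂ) = (d i : E) := map_natCast φ (d i)
    have h4 : φ (1 / 4) = 1 / 4 := by
      rw [map_div₀, map_one, map_ofNat]
    rw [h3, h4] at h1
    rw [← h1]
    unfold eqL
    simp only [hRφ]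
    congr 2
    refine Finset.sum_congr rfl fun j _ => Finset.sum_congr rfl fun l _ => ?_
    congr 1
    rw [hinv i, hinv j, hinv l]
    ring
  · have h1 := hv _ hp3
    simp only [p3, MvPolynomial.eval₂_sub, MvPolynomial.eval₂_prod, MvPolynomial.eval₂_pow,
      MvPolynomial.eval₂_X, MvPolynomial.eval₂_C] at h1
    rw [sub_eq_zero.1 h1]
    exact hcst' c
  · change P.Lim (v (Sum.inl i0)) 0
    rw [MvPolynomial.eval₂_X] at hvh
    rw [hvh]
    exact hXI

end Pool.Agent.H.MP_deabf1_gt.Tet
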