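import Pool.Agent.H.MP_deabf1_gt.WA
import Pool.Agent.H.MP_deabf1_gt.helper94.Prim

/-!
Discrete places of a finite extension of the rational function field of the complex numbers, with
values in the complex numbers, over the point zero.
-/

namespace Pool.Agent.H.MP_deabf1_gt.Tet

open Polynomial Gen

section Val

variable {E : Type*} [Field E] {Γ : Type*} [LinearOrderedCommGroupWithZero Γ] (v : Valuation E Γ)
  (ι : ℂ →+* E)

/-- If a nonzero complex polynomial is infinitesimal at a bounded element, then the element has a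
value. -/
theorem exists_root (hι : ∀ z : ℂ, z ≠ 0 → v (ι z) = 1) (a : E) (n : ℕ) :
    ∀ q : ℂ[X], q ≠ 0 → q.natDegree = n → v (q.eval₂ ι a) < 1 → ∃ c : ℂ, v (a - ι c) < 1 := by
  induction n with
  | zero =>
    intro q hq hn hv
    obtain ⟨z, rfl⟩ := natDegree_eq_zero.1 hn
    have hz : z ≠ 0 := by
      rintro rfl
      exact hq (map_zero _)
    rw [eval₂_C, hι z hz] at hv
    exact absurd hv (lt_irrefl _)
  | succ n ih =>
    intro q hq hn hv
    obtain ⟨z, hz⟩ := IsAlgClosed.exists_root q (by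
      rw [degree_eq_natDegree hq, hn]
      exact_mod_cast (Nat.succ_ne_zero n))
    obtain ⟨r, rfl⟩ := dvd_iff_isRoot.2 hz
    have hr : r ≠ 0 := by
      rintro rfl
      exact hq (mul_zero _)
    have hdeg : r.natDegree = n := by
      rw [natDegree_mul (X_sub_C_ne_zero z) hr, natDegree_X_sub_C] at hn
      omega
    rw [eval₂_mul, eval₂_sub, eval₂_X, eval₂_C, map_mul] at hv
    by_contra hne
    push Not at hne
    have h1 : 1 ≤ v (a - ι z) := hne z
    have h2 : 1 ≤ v (r.eval₂ ι a) := by
      by_contra h2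
      obtain ⟨c, hc⟩ := ih r hr hdeg (not_le.1 h2)
      exact absurd hc (not_lt.2 (hne c))
    exact absurd hv (not_lt.2 (one_le_mul h1 h2))

/-- A bounded element which is algebraic over the polynomials satisfies a nonzero complex polynomial
up to infinitesimals. -/
theorem exists_rel [Algebra ℂ[X] E] (hinj : Function.Injective (algebraMap ℂ[X] E))
    (hle : ∀ p : ℂ[X], v (algebraMap ℂ[X] E p) ≤ 1) (hX : v (algebraMap ℂ[X] E X) < 1) (a : E)
    (ha : v a ≤ 1) (halg : IsAlgebraic ℂ[X] a) :
    ∃ q : ℂ[X], q ≠ 0 ∧ v (q.eval₂ ((algebraMap ℂ[X] E).comp C) a) < 1 := by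
  obtain ⟨p, hp, hpa⟩ := halg
  have hirr : Irreducible (C X : ℂ[X][X]) := (prime_C_iff.2 prime_X).irreducible
  obtain ⟨n, r, hr, rfl⟩ := WfDvdMonoid.max_power_factor hp hirr
  have hra : eval₂ (algebraMap ℂ[X] E) a r = 0 := by
    rw [aeval_def, eval₂_mul, eval₂_pow, eval₂_C, mul_eq_zero] at hpa
    rcases hpa with h | h
    · have h1 : algebraMap ℂ[X] E X = 0 := by
        by_contra h2
        exact pow_ne_zero n h2 h
      exact absurd (hinj (by rw [h1, map_zero])) (X_ne_zero (R := ℂ))
    · exact h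
  refine ⟨r.map (evalRingHom 0), fun h0 => hr ?_, ?_⟩
  · rw [C_dvd_iff_dvd_coeff]
    intro i
    rw [X_dvd_iff, coeff_zero_eq_eval_zero]
    have h1 := congrArg (fun f => coeff f i) h0
    simpa [coeff_map] using h1
  · have hsub : eval₂ ((algebraMap ℂ[X] E).comp C) a (r.map (evalRingHom 0)) =
        ∑ i ∈ Finset.range (r.natDegree + 1),
          (algebraMap ℂ[X] E (C ((r.coeff i).eval 0) - r.coeff i)) * a ^ i := by
      have h1 : eval₂ ((algebraMap ℂ[X] E).comp C) a (r.map (evalRingHom 0)) =
          eval₂ ((algebraMap ℂ[X] E).comp C) a (r.map (evalRingHom 0)) -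
            eval₂ (algebraMap ℂ[X] E) a r := by
        rw [hra, sub_zero]
      rw [h1, eval₂_map, eval₂_eq_sum_range, eval₂_eq_sum_range, ← Finset.sum_sub_distrib]
      refine Finset.sum_congr rfl fun i _ => ?_
      simp only [RingHom.coe_comp, Function.comp_apply, coe_evalRingHom, map_sub, sub_mul]
    rw [hsub]
    refine Valuation.map_sum_lt v one_ne_zero fun i _ => ?_
    obtain ⟨s, hs⟩ : X ∣ r.coeff i - C ((r.coeff i).eval 0) := by
      rw [← coeff_zero_eq_eval_zero]
      exact X_dvd_sub_C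
    have h2 : C ((r.coeff i).eval 0) - r.coeff i = X * (-s) := by
      rw [mul_neg, ← hs]
      ring
    rw [h2, map_mul, map_mul, map_mul, map_pow]
    have h3 : v (algebraMap ℂ[X] E X) * v (algebraMap ℂ[X] E (-s)) * v a ^ i ≤
        v (algebraMap ℂ[X] E X) := by
      rw [mul_assoc]
      exact mul_le_of_le_one_right' (mul_le_one' (hle _) (pow_le_one' ha i))
    exact lt_of_le_of_lt h3 hX

end Val

/-- A discrete place of a finite extension of the rational functions over the point zero. -/
theorem exists_place (E : Type) [Field E] [Algebra (KK ℂ) E] [FiniteDimensional (KK ℂ) E]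
    [Algebra ℝ E]
    (hR : ∀ r : ℝ, algebraMap ℝ E r = algebraMap (KK ℂ) E (algebraMap ℂ (KK ℂ) (r : ℂ))) :
    ∃ (P : Pl E) (t : E), t ≠ 0 ∧ P.I t ∧
      P.I (algebraMap (KK ℂ) E (algebraMap ℂ[X] (KK ℂ) X)) ∧
      (∀ z : ℂ, P.Lim (algebraMap (KK ℂ) E (algebraMap ℂ (KK ℂ) z)) z) ∧
      ∀ a : E, a ≠ 0 → ∃ (n : ℤ) (c : ℂ), c ≠ 0 ∧ P.Lim (a / t ^ n) c := by
  let algX : Algebra ℂ[X] E := ((algebraMap (KK ℂ) E).comp (algebraMap ℂ[X] (KK ℂ))).toAlgebra
  have tow : IsScalarTower ℂ[X] (KK ℂ) E := IsScalarTower.of_algebraMap_eq fun _ => rfl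
  have sep : Algebra.IsSeparable (KK ℂ) E := inferInstance
  let B := integralClosure ℂ[X] E
  have ded : IsDedekindDomain B := integralClosure.isDedekindDomain ℂ[X] (KK ℂ) E
  have frac : IsFractionRing B E := integralClosure.isFractionRing_of_finite_extension (KK ℂ) E
  have hinj : Function.Injective (algebraMap ℂ[X] E) :=
    (algebraMap (KK ℂ) E).injective.comp (IsFractionRing.injective ℂ[X] (KK ℂ))
  have hBE : ∀ p : ℂ[X], algebraMap ℂ[X] E p = algebraMap B E (algebraMap ℂ[X] B p) := fun _ => rfl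
  have hinjB : Function.Injective (algebraMap ℂ[X] B) := by
    intro p q h
    apply hinj
    rw [hBE, hBE, h]
  have hXp : (Ideal.span {(X : ℂ[X])}).IsPrime :=
    (Ideal.span_singleton_prime X_ne_zero).2 prime_X
  obtain ⟨Q, -, hQp, hQ⟩ := Ideal.exists_ideal_over_prime_of_isIntegral (S := B)
    (Ideal.span {(X : ℂ[X])}) ⊥ (by
      intro p hp
      have h1 : algebraMap ℂ[X] B p = 0 := hp
      have h2 : p = 0 := hinjB (by rw [h1, map_zero])
      rw [h2]
      exact zero_mem _)
  have hXQ : algebraMap ℂ[X] B X ∈ Q := by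
    have h1 : (X : ℂ[X]) ∈ Q.comap (algebraMap ℂ[X] B) := by
      rw [hQ]
      exact Ideal.mem_span_singleton_self X
    exact h1
  have hQ0 : Q ≠ ⊥ := by
    rintro rfl
    have h1 : algebraMap ℂ[X] B X = 0 := hXQ
    exact absurd (hinjB (by rw [h1, map_zero])) (X_ne_zero (R := ℂ))
  let w : IsDedekindDomain.HeightOneSpectrum B := ⟨Q, hQp, hQ0⟩
  let v := w.valuation E
  have hle : ∀ p : ℂ[X], v (algebraMap ℂ[X] E p) ≤ 1 := by
    intro p
    rw [hBE]
    exact w.valuation_le_one _
  have hX : v (algebraMap ℂ[X] E X) < 1 := by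
    rw [hBE]
    exact (w.valuation_lt_one_iff_mem _).2 hXQ
  let ι : ℂ →+* E := (algebraMap ℂ[X] E).comp C
  have hι : ∀ z : ℂ, z ≠ 0 → v (ι z) = 1 := by
    intro z hz
    have h1 : v (ι z) ≤ 1 := hle _
    have h2 : v (ι z⁻¹) ≤ 1 := hle _
    have h3 : v (ι z) * v (ι z⁻¹) = 1 := by
      rw [← map_mul, ← map_mul, mul_inv_cancel₀ hz, map_one, map_one]
    refine le_antisymm h1 ?_
    calc 1 = v (ι z) * v (ι z⁻¹) := h3.symm
      _ ≤ v (ι z) := mul_le_of_le_one_right' h2
  have hι1 : ∀ z : ℂ, v (ι z) ≤ 1 := fun z => hle _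
  have hιz : ∀ z : ℂ, ι z = algebraMap (KK ℂ) E (algebraMap ℂ (KK ℂ) z) := by
    intro z
    rfl
  have hlim : ∀ a, v a ≤ 1 → ∃ c, v (a - ι c) < 1 := by
    intro a ha
    have halg : IsAlgebraic ℂ[X] a :=
      (IsFractionRing.isAlgebraic_iff ℂ[X] (KK ℂ) E).2 (Algebra.IsAlgebraic.isAlgebraic a)
    obtain ⟨q, hq, hqv⟩ := exists_rel v hinj hle hX a ha halg
    exact exists_root v ι hι a q.natDegree q hq rfl hqv
  have hbd : ∀ a c, v (a - ι c) < 1 → v a ≤ 1 := by
    intro a c h
    have h1 : a = (a - ι c) + ι c := by ring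
    rw [h1]
    exact Valuation.map_add_le v h.le (hι1 c)
  let P : Pl E :=
    { Lim := fun a c => v (a - ι c) < 1
      add := by
        intro a b c d h h'
        have h1 : a + b - ι (c + d) = (a - ι c) + (b - ι d) := by
          rw [map_add]
          ring
        rw [h1]
        exact Valuation.map_add_lt v h h'
      mul := by
        intro a b c d h h'
        have h1 : a * b - ι (c * d) = a * (b - ι d) + (a - ι c) * ι d := by
          rw [map_mul]
          ring
        rw [h1]
        refine Valuation.map_add_lt v ?_ ?_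
        · rw [map_mul]
          exact lt_of_le_of_lt (mul_le_of_le_one_left' (hbd a c h)) h'
        · rw [map_mul]
          exact lt_of_le_of_lt (mul_le_of_le_one_right' (hι1 d)) h
      cst := by
        intro r
        have h1 : algebraMap ℝ E r - ι (r : ℂ) = 0 := by
          rw [hR, hιz, sub_self]
        rw [h1, map_zero]
        exact zero_lt_one
      uniq := by
        intro a c d h h'
        by_contra hne
        have h1 : ι (c - d) = (a - ι d) - (a - ι c) := by
          rw [map_sub]
          ring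
        have h2 : v (ι (c - d)) < 1 := by
          rw [h1]
          exact Valuation.map_sub_lt v h' h
        rw [hι _ (sub_ne_zero.2 hne)] at h2
        exact lt_irrefl _ h2
      dich := by
        intro a
        rcases le_or_gt (v a) 1 with h | h
        · exact Or.inl (hlim a h)
        · refine Or.inr ?_
          rw [map_zero, sub_zero, map_inv₀]
          exact inv_lt_one_of_one_lt₀ h }
  obtain ⟨t, ht⟩ := w.valuation_exists_uniformizer E
  have ht0 : t ≠ 0 := by
    rintro rfl
    rw [map_zero] at ht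
    exact WithZero.exp_ne_zero ht.symm
  refine ⟨P, t, ht0, ?_, ?_, ?_, ?_⟩
  · change v (t - ι 0) < 1
    rw [map_zero, sub_zero]
    change w.valuation E t < 1
    rw [ht, ← WithZero.exp_zero]
    exact WithZero.exp_lt_exp.2 (by norm_num)
  · change v (algebraMap ℂ[X] E X - ι 0) < 1
    rw [map_zero, sub_zero]
    exact hX
  · intro z
    change v (ι z - ι z) < 1
    rw [sub_self, map_zero]
    exact zero_lt_one
  · intro a ha
    have hva : v a ≠ 0 := (Valuation.ne_zero_iff v).2 ha
    refine ⟨-WithZero.log (v a), ?_⟩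
    have h1 : v (a / t ^ (-WithZero.log (v a))) = 1 := by
      rw [map_div₀, map_zpow₀]
      change v a / (w.valuation E t) ^ (-WithZero.log (v a)) = 1
      have h2 : (-WithZero.log (v a)) • (-1 : ℤ) = WithZero.log (v a) := by
        rw [smul_eq_mul]
        ring
      rw [ht, ← WithZero.exp_zsmul, h2, WithZero.exp_log hva]
      exact div_self hva
    obtain ⟨c, hc⟩ := hlim _ h1.le
    refine ⟨c, ?_, hc⟩
    rintro rfl
    rw [map_zero, sub_zero, h1] at hc
    exact lt_irrefl _ hc

end Pool.Agent.H.MP_deabf1_gt.Tet
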